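import Pool.Agent.Helper58.GC.Max
import Pool.Agent.Helper58.GC.Final
import Pool.Agent.Helper64.CubeGauss.A2b

/-!
The maximal Gaussian measure of central hyperplane sections of the cube `[-1,1]^n`.

Joint work of the seats helper58 and helper64.
-/

set_option autoImplicit false

open MeasureTheory ProbabilityTheory Set

namespace Pool.Agent.Results.MP_3a0321_gt.CubeSectionMax

/-- `γ_{n-1}([-r,r]^n ∩ θ^⊥)`: the standard Gaussian measure of the hyperplane
`θ^⊥ = (span {θ})ᗮ` (Mathlib's `stdGaussian`), evaluated at the section of the cube. -/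
noncomputable def sectionMeasure {n : ℕ} (r : ℝ) (θ : EuclideanSpace ℝ (Fin n)) : ℝ :=
  (stdGaussian (Submodule.span ℝ {θ})ᗮ).real
    {x | ∀ i, |(x : EuclideanSpace ℝ (Fin n)) i| ≤ r}

/-- `M_n(r)`: the supremum of the section measures over all unit vectors. -/
noncomputable def maxSection (n : ℕ) (r : ℝ) : ℝ :=
  sSup {v | ∃ θ : EuclideanSpace ℝ (Fin n), ‖θ‖ = 1 ∧ v = sectionMeasure r θ}

/-- `γ₁([-a,a])` -/
noncomputable def gaussInterval (a : ℝ) : ℝ := (gaussianReal 0 1).real (Icc (-a) a)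

/-- The unit vector `(1,…,1)/√n`. -/
noncomputable def diagonal (n : ℕ) : EuclideanSpace ℝ (Fin n) := WithLp.toLp 2 (fun _ => 1 / √n)

/-- For every `n ≥ 3` the maximum `M_n(1)` is attained; it equals `γ₁([-√2,√2]) γ₁([-1,1])^{n-2}` for
`n = 3, 4, 5`, it equals the measure of the section orthogonal to the main diagonal for `n ≥ 6`, and it
is strictly smaller than `γ_{n-1}(√(n/(n-1)) [-1,1]^{n-1})` for all `n ≥ 3`. -/
theorem result {n : ℕ} (hn : 3 ≤ n) :
    IsGreatest {v | ∃ θ : EuclideanSpace ℝ (Fin n), ‖θ‖ = 1 ∧ v = sectionMeasure 1 θ}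
      (maxSection n 1) ∧
    (n ≤ 5 → maxSection n 1 = gaussInterval √2 * gaussInterval 1 ^ (n - 2)) ∧
    (6 ≤ n → maxSection n 1 = sectionMeasure 1 (diagonal n) ∧
      maxSection n 1 = (√(2 * Real.pi))⁻¹ *
        ∫ t, (∫ x in Icc (-1 : ℝ) 1, Real.cos (t * x / √n) ∂(gaussianReal 0 1)) ^ n) ∧
    maxSection n 1 < (stdGaussian (EuclideanSpace ℝ (Fin (n - 1)))).real
      {x | ∀ i, |x i| ≤ √((n : ℝ) / (n - 1))} := by
  rw [Helper58.GC.bl_eq (by omega)]
  by_cases h5 : n ≤ 5
  · have hG := Helper58.GC.greatest_small (n := n) (by omega)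
      (fun th hsum i0 i1 hne heq hle => Helper64.CubeGauss.max_small h5 th hsum i0 i1 hne heq hle)
    have e : maxSection n 1 = (gaussianReal 0 1).real (Icc (-√2) √2) * Helper58.GC.pp ^ (n - 2) :=
      hG.csSup_eq
    have hp : Helper58.GC.pp = gaussInterval 1 := Helper58.GC.gauss_one.symm
    refine ⟨by rw [e]; exact hG, fun _ => ?_, fun h6 => absurd h6 (by omega), ?_⟩
    · rw [e, hp]
      rfl
    · rw [e]
      exact Helper58.GC.small_lt_bl hn h5
  · have h6 : 6 ≤ n := by omega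
    have hG := Helper58.GC.greatest_large (n := n) h6
      (fun th hsum i0 i1 hne heq hle => Helper58.GC.max_large h6 th hsum i0 i1 hne heq hle)
    have e : maxSection n 1 = Helper58.GC.secMeas 1 (Helper58.GC.diagDir n) := hG.csSup_eq
    refine ⟨by rw [e]; exact hG, fun h => absurd h h5, fun _ => ⟨by rw [e]; rfl, ?_⟩, ?_⟩
    · rw [e, Helper58.GC.diag_formula (by omega)]
    · rw [e]
      exact Helper58.GC.large_lt_bl h6

end Pool.Agent.Results.MP_3a0321_gt.CubeSectionMax
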